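import Pool.Agent.Q257.PPC.Main

/-!
# The multiples `p_n α` of almost every `α ∈ ℝ ^ d`, `d ≥ 2`, by the primes: no Poissonian pair correlations

By the divergence part of the theorem of Khinchin and Groshev almost every `α` has infinitely many integer
vectors `w` with `‖w · α‖ ≤ ε / (|w| ^ d log |w|)`. Then all the points `{p_n α}`, `n ≤ C |w| ^ d`, are near the
hyperplanes `w · θ ∈ ℤ`, hence in few of the cubes with side `1 / (C ^ (1 / d) |w|)`, and there are too many
pairs of points in the same cube.
-/

set_option autoImplicit false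

namespace Pool.Agent.Results.MP_29df5b_nt.PrimesNoPPC

open MeasureTheory Q257.PPC

/-- **Theorem.** Let `d ≥ 2`. For Lebesgue-almost every `α ∈ ℝ ^ d` the sequence `({p_n α})`, where `p_n` is
the `n`-th prime, does not have Poissonian pair correlations. (Here `Nat.nth Nat.Prime k` is the prime
`p_(k + 1)`, for `k = 0, 1, 2, …`.) -/
theorem result (d : ℕ) (hd : 2 ≤ d) : ∀ᵐ α : Fin d → ℝ ∂volume,
    ¬ HasPPC d (fun k i => Int.fract ((Nat.nth Nat.Prime k : ℝ) * α i)) := by
  obtain ⟨n, rfl⟩ := Nat.exists_eq_add_of_le' hd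
  exact primes_not_ppc n

end Pool.Agent.Results.MP_29df5b_nt.PrimesNoPPC
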